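import Pool.Agent.KS6_12.QProg.CoreQ

/-! # Rational points of hyperbolic varieties along geometric progressions

`X` is the projective variety over the number field `K` given by the forms `F i` in `n + 1`
variables, and `X_σ` is Brody hyperbolic (for a projective variety this is the same as Kobayashi
hyperbolic). `PP K n` is projective space of dimension `n`, `Zer` the zero set of forms, `IsHol`
says that a map to complex projective space is holomorphic, `toC σ` is the map from the
`K`-rational points to the complex points (`Pool/Agent/KS6_12/Hyp/Defs.lean`), `PDisc r` is the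
punctured disc `0 < |z| < r` (`Pool/Agent/KS6_12/QProg/CoreQ.lean`). The height `logHeight` is the
logarithmic Weil height relative to `K` of Mathlib.

Let `f` be a holomorphic map of a punctured disc to `X_σ`.

* Let `Q` be an arbitrary complex number, `0 < |Q| < 1`. If for all sufficiently large `j` the
  point `f (Q ^ j)` is `K`-rational of height at most
  `log (1 / |Q|) j² / (192 (n + 2) [K : ℚ] log j)`, then `f` is constant.
* Let `q` be an element of `K`, `0 < |σ q| < 1`. There is `c > 0`, independent of `X` and `f`, such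
  that if for all sufficiently large `j` the point `f (σ q ^ j)` is `K`-rational of height at most
  `c j²`, then `f` is constant.

The proof: the coordinates of `f` satisfy a multilinear (linear in the second case) `q`-difference
equation, hence have meromorphic continuations to the plane, and `f` extends to an entire curve in
`X_σ`. -/

set_option autoImplicit false

open NumberField Height Metric Set Filter Topology Pool.Agent.KS6_12

namespace Pool.Agent.Results.MP_627a61_nt.GeometricProgressions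

theorem result {K : Type} [Field K] [NumberField K] (σ : K →+* ℂ) (n : ℕ) :
    (∀ {ι : Type} [Fintype ι] (F : ι → MvPolynomial (Fin (n + 1)) K) (e : ι → ℕ),
      (∀ i, (F i).IsHomogeneous (e i)) → BrodyHyp (fun i => (F i).map σ) →
      ∀ (Q : ℂ), 0 < ‖Q‖ → ‖Q‖ < 1 → ∀ (r : ℝ), 0 < r → ∀ f : ℂ → PP ℂ n, IsHol (PDisc r) f →
      (∀ z ∈ PDisc r, f z ∈ Zer fun i => (F i).map σ) →
      (∀ᶠ j : ℕ in atTop, ∃ x : PP K n, x.logHeight ≤
        Real.log (1 / ‖Q‖) * j ^ 2 / (192 * (n + 2) * Module.finrank ℚ K * Real.log j) ∧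
        f (Q ^ j) = toC σ x) →
      ∃ x : PP K n, ∀ z ∈ PDisc r, f z = toC σ x) ∧
    ∀ q : K, 0 < ‖σ q‖ → ‖σ q‖ < 1 → ∃ c : ℝ, 0 < c ∧
      ∀ {ι : Type} [Fintype ι] (F : ι → MvPolynomial (Fin (n + 1)) K) (e : ι → ℕ),
      (∀ i, (F i).IsHomogeneous (e i)) → BrodyHyp (fun i => (F i).map σ) →
      ∀ (r : ℝ), 0 < r → ∀ f : ℂ → PP ℂ n, IsHol (PDisc r) f →
      (∀ z ∈ PDisc r, f z ∈ Zer fun i => (F i).map σ) →
      (∀ᶠ j : ℕ in atTop, ∃ x : PP K n, x.logHeight ≤ c * j ^ 2 ∧ f (σ q ^ j) = toC σ x) →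
      ∃ x : PP K n, ∀ z ∈ PDisc r, f z = toC σ x := by
  have hn : (0 : ℝ) < n + 2 := by positivity
  refine ⟨?_, ?_⟩
  · intro ι _ F e hF hyp Q hQ0 hQ1 r hr f hf hfX hev
    have hQ0' : Q ≠ 0 := norm_pos_iff.1 hQ0
    refine core_q σ F e hF hyp hQ0' hQ1 hr f hf hfX
      (fun j => Real.log (1 / ‖Q‖) * j ^ 2 / (192 * Module.finrank ℚ K * Real.log j)) ?_
      (fun hr₀ hr₀1 hM _ hφ hφM _ _ _ hval _ hR hmer =>
        step_one hQ0' hQ1 hr₀ hr₀1 hM hφ hφM hval hR hmer)
    filter_upwards [hev] with j hj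
    obtain ⟨x, hx, hfx⟩ := hj
    refine ⟨x, ?_, hfx⟩
    refine (mul_le_mul_of_nonneg_left hx hn.le).trans (le_of_eq ?_)
    field_simp
  · intro q hq0 hq1
    have hq0' : σ q ≠ 0 := norm_pos_iff.1 hq0
    obtain ⟨c, hc, hstep⟩ := step_two σ hq0' hq1
    refine ⟨c / (n + 2), by positivity, ?_⟩
    intro ι _ F e hF hyp r hr f hf hfX hev
    refine core_q σ F e hF hyp hq0' hq1 hr f hf hfX (fun j => c * j ^ 2) ?_
      (fun hr₀ hr₀1 hM _ hφ hφM _ _ _ hval _ _ hmer => hstep hr₀ hr₀1 hM hφ hφM hval hmer)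
    filter_upwards [hev] with j hj
    obtain ⟨x, hx, hfx⟩ := hj
    refine ⟨x, ?_, hfx⟩
    refine (mul_le_mul_of_nonneg_left hx hn.le).trans (le_of_eq ?_)
    field_simp

end Pool.Agent.Results.MP_627a61_nt.GeometricProgressions
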