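import Pool.Agent.KS6_12.Hyp.Main

/-! # Rational points on holomorphic discs in a hyperbolic projective variety

`X` is the projective variety over the number field `K` given by the forms `F i`, and `X_σ` is
Brody hyperbolic (for a projective variety this is the same as Kobayashi hyperbolic). `PP K n` is
projective space of dimension `n`, `Zer` the zero set of forms, `IsHol` says that a map to complex
projective space is holomorphic, `toC σ` is the map from the `K`-rational points to the complex
points (`Pool/Agent/KS6_12/Hyp/Defs.lean`). The heights `mulHeight₁` and `logHeight` are the Weil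
heights relative to `K` of Mathlib.

There is a constant `C`, which depends only on `X` and `K`, such that the following holds for all
holomorphic maps `f` from the unit disc to `X_σ`, all points `z₀` of the half disc, all steps `b`
with `0 < |b| ≤ 1 / C` and all `h ≥ 0`. Let `S` be a finite set of numbers `u` of `K` of height at
most `|b| ^ (- 1 / (44 [K : ℚ]))` for which `f (z₀ + b u)` is a `K`-rational point of logarithmic
height at most `h`. If `S` has more than `C (1 + h / log (1 / |b|))` elements, then `f` takes the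
same value at all points `z₀ + b u`, `u ∈ S`. -/

set_option autoImplicit false

open NumberField Height Metric Set Pool.Agent.KS6_12

namespace Pool.Agent.Results.MP_627a61_nt.GridRepulsion

theorem result {K : Type} [Field K] [NumberField K] (σ : K →+* ℂ) {n : ℕ} {ι : Type} [Fintype ι]
    (F : ι → MvPolynomial (Fin (n + 1)) K) (e : ι → ℕ) (hF : ∀ i, (F i).IsHomogeneous (e i))
    (hyp : BrodyHyp fun i => (F i).map σ) :
    ∃ C : ℝ, 1 < C ∧
      ∀ f : ℂ → PP ℂ n, IsHol (ball 0 1) f →
      (∀ z ∈ ball (0 : ℂ) 1, f z ∈ Zer fun i => (F i).map σ) →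
      ∀ z₀ ∈ ball (0 : ℂ) (1 / 2), ∀ b : ℂ, 0 < ‖b‖ → ‖b‖ ≤ 1 / C → ∀ h : ℝ, 0 ≤ h →
      ∀ S : Finset K,
      (∀ u ∈ S, mulHeight₁ u ≤ (1 / ‖b‖) ^ (1 / (44 * (Module.finrank ℚ K : ℝ))) ∧
        ∃ x : PP K n, x.logHeight ≤ h ∧ f (z₀ + b * σ u) = toC σ x) →
      C * (1 + h / Real.log (1 / ‖b‖)) < S.card →
      ∀ u ∈ S, ∀ v ∈ S, f (z₀ + b * σ u) = f (z₀ + b * σ v) := by
  classical
  obtain ⟨C₃, ρ, hC₃, hρ, hρ4, hcore⟩ := core σ hF hyp
  set δ : ℕ := Module.finrank ℚ K with hδ
  have hδpos : 0 < δ := Module.finrank_pos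
  have hδ1 : (1 : ℝ) ≤ δ := by exact_mod_cast hδpos
  set η : ℝ := 1 / (4 * (8 * δ + 3)) with hη
  have hηpos : 0 < η := by positivity
  have hη4 : 2 * η ≤ 1 / 2 := by
    rw [hη, mul_one_div, div_le_div_iff₀ (by positivity) (by norm_num)]
    linarith
  set E : ℕ := ∑ i, e i with hE
  set C₄ : ℝ := (3 + 2 * (n + 1) * E) * (32 * δ * (n + 2)) with hC₄
  set L : ℝ := 64 * δ + 16 * δ * Real.log C₃ + 12 * Real.log (16 / ρ) + 1 with hL
  have h16 : 1 ≤ 16 / ρ := by
    rw [le_div_iff₀ hρ]
    linarith
  have hlogρ : 0 ≤ Real.log (16 / ρ) := Real.log_nonneg h16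
  have hlogC : 0 ≤ Real.log C₃ := Real.log_nonneg hC₃
  have hLpos : 0 < L := by positivity
  have hC₄1 : 1 ≤ C₄ := by
    rw [hC₄]
    have h1 : (1 : ℝ) ≤ 3 + 2 * (n + 1) * E := by
      have : (0 : ℝ) ≤ 2 * (n + 1) * E := by positivity
      linarith
    have h2 : (1 : ℝ) ≤ 32 * δ * (n + 2) := by
      have h3 : (0 : ℝ) ≤ n := by positivity
      nlinarith
    nlinarith
  refine ⟨C₄ + Real.exp L, ?_, ?_⟩
  · have := Real.exp_pos L
    linarith
  intro f hf hfX z₀ hz₀ b hb0 hbC h hh S hS hScard
  have hb : b ≠ 0 := norm_pos_iff.1 hb0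
  set lam : ℝ := Real.log (1 / ‖b‖) with hlam
  have hlamL : L ≤ lam := by
    rw [hlam, Real.le_log_iff_exp_le (by positivity), le_div_iff₀ hb0]
    have h1 : Real.exp L * ‖b‖ ≤ (C₄ + Real.exp L) * (1 / (C₄ + Real.exp L)) :=
      mul_le_mul (by linarith) hbC (norm_nonneg _) (by positivity)
    rwa [mul_one_div_cancel (by positivity)] at h1
  have hlampos : 0 < lam := lt_of_lt_of_le hLpos hlamL
  have hbexp : ‖b‖ = Real.exp (-lam) := by
    rw [hlam, one_div, Real.log_inv, neg_neg, Real.exp_log hb0]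
  have hb1 : ‖b‖ ≤ 1 := by
    rw [hbexp]
    exact Real.exp_le_one_iff.2 (by linarith)
  have hlog8 : Real.log (8 / ρ) ≤ Real.log (16 / ρ) :=
    Real.log_le_log (by positivity) (div_le_div_of_nonneg_right (by norm_num) hρ.le)
  set W : ℝ := Real.exp (2 * η * lam) with hW
  set Y : ℝ := Real.exp ((n + 2) * h) with hY
  have hn2 : (0 : ℝ) ≤ (n + 2) * h := by positivity
  set m : ℕ := ⌊32 * δ * (n + 2) * h / lam⌋₊ + 1 with hm
  have hmpos : 0 < m := by omega
  have hm1 : (1 : ℝ) ≤ m := by exact_mod_cast hmpos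
  have hm_lt : 32 * δ * (n + 2) * h / lam < m := by
    rw [hm]
    push_cast
    exact Nat.lt_floor_add_one _
  have hm_le : (m : ℝ) ≤ 32 * δ * (n + 2) * (1 + h / lam) := by
    have h1 : (⌊32 * δ * (n + 2) * h / lam⌋₊ : ℝ) ≤ 32 * δ * (n + 2) * h / lam :=
      Nat.floor_le (by positivity)
    have h2 : (1 : ℝ) ≤ 32 * δ * (n + 2) := by
      have h3 : (0 : ℝ) ≤ n := by positivity
      nlinarith
    rw [hm]
    push_cast
    calc (⌊32 * δ * (n + 2) * h / lam⌋₊ : ℝ) + 1 ≤
        32 * δ * (n + 2) * h / lam + 32 * δ * (n + 2) := add_le_add h1 h2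
      _ = _ := by ring
  have hbig : ((3 + 2 * (n + 1) * E : ℕ) : ℝ) * m < S.card := by
    refine lt_of_le_of_lt ?_ hScard
    have h1 : (0 : ℝ) ≤ 1 + h / lam := by positivity
    push_cast
    calc (3 + 2 * (n + 1) * E : ℝ) * m ≤
        (3 + 2 * (n + 1) * E) * (32 * δ * (n + 2) * (1 + h / lam)) :=
          mul_le_mul_of_nonneg_left hm_le (by positivity)
      _ = C₄ * (1 + h / lam) := by rw [hC₄]; ring
      _ ≤ (C₄ + Real.exp L) * (1 + h / lam) :=
          mul_le_mul_of_nonneg_right (by have := Real.exp_pos L; linarith) h1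
  have hbig' : (3 + 2 * (n + 1) * E) * m < S.card := by exact_mod_cast hbig
  refine hcore f hf hfX z₀ hz₀ b hb hb1 W Y ?_ ?_ ?_ m hmpos ?_ S ?_ ?_ ?_
  · exact Real.one_le_exp (by positivity)
  · exact Real.one_le_exp hn2
  · -- `‖b‖ W ≤ ρ / 8`
    have h1 : ‖b‖ * W = Real.exp (-lam + 2 * η * lam) := by
      rw [hbexp, hW, ← Real.exp_add]
    rw [h1, ← Real.exp_log (show 0 < ρ / 8 by positivity)]
    apply Real.exp_le_exp.2
    have h2 : Real.log (ρ / 8) = -Real.log (8 / ρ) := by
      rw [← Real.log_inv, inv_div]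
    rw [h2]
    have h3 : 2 * η * lam ≤ 1 / 2 * lam := mul_le_mul_of_nonneg_right hη4 hlampos.le
    have h4 : 2 * Real.log (16 / ρ) ≤ lam := by
      refine le_trans ?_ hlamL
      rw [hL]
      have : (0 : ℝ) ≤ 64 * δ + 16 * δ * Real.log C₃ := by positivity
      linarith
    linarith
  · -- the smallness condition
    have h1 : W ^ (8 * δ + 3) = Real.exp (lam / 2) := by
      rw [hW, ← Real.exp_nat_mul]
      congr 1
      push_cast
      rw [hη]
      field_simp
      norm_num
    have h2 : (16 / ρ) ^ 3 = Real.exp (3 * Real.log (16 / ρ)) := by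
      rw [show (3 : ℝ) * Real.log (16 / ρ) = ((3 : ℕ) : ℝ) * Real.log (16 / ρ) by norm_num,
        Real.exp_nat_mul, Real.exp_log (by positivity)]
    have h3 : W ^ (8 * δ + 3) * (16 / ρ) ^ 3 * ‖b‖ ≤ Real.exp (-lam / 4) := by
      rw [h1, h2, hbexp, ← Real.exp_add, ← Real.exp_add]
      apply Real.exp_le_exp.2
      have h4 : 12 * Real.log (16 / ρ) ≤ lam := by
        refine le_trans ?_ hlamL
        rw [hL]
        have : (0 : ℝ) ≤ 64 * δ + 16 * δ * Real.log C₃ := by positivity
        linarith
      linarith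
    have h4 : (m : ℝ) ≤ Real.exp m := by
      have := Real.add_one_le_exp (m : ℝ)
      linarith
    have h5 : C₃ * (m * Y) ^ 4 ≤ Real.exp (Real.log C₃ + 4 * (m + (n + 2) * h)) := by
      rw [Real.exp_add, Real.exp_log (by linarith)]
      refine mul_le_mul_of_nonneg_left ?_ (by linarith)
      rw [show (4 : ℝ) * (m + (n + 2) * h) = ((4 : ℕ) : ℝ) * (m + (n + 2) * h) by norm_num,
        Real.exp_nat_mul, Real.exp_add]
      exact pow_le_pow_left₀ (by positivity) (mul_le_mul_of_nonneg_right h4 (by positivity)) _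
    calc (C₃ * (m * Y) ^ 4) ^ δ * (W ^ (8 * δ + 3) * (16 / ρ) ^ 3 * ‖b‖) ^ m
        ≤ Real.exp (Real.log C₃ + 4 * (m + (n + 2) * h)) ^ δ * Real.exp (-lam / 4) ^ m :=
          mul_le_mul (pow_le_pow_left₀ (by positivity) h5 _)
            (pow_le_pow_left₀ (by positivity) h3 _) (by positivity) (by positivity)
      _ = Real.exp (δ * (Real.log C₃ + 4 * (m + (n + 2) * h)) + m * (-lam / 4)) := by
          rw [← Real.exp_nat_mul, ← Real.exp_nat_mul, ← Real.exp_add]
      _ < 1 := by
          rw [← Real.exp_zero]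
          apply Real.exp_lt_exp.2
          have h6 : 16 * (δ * Real.log C₃) ≤ lam := by
            refine le_trans ?_ hlamL
            rw [hL]
            have : (0 : ℝ) ≤ 64 * δ := by positivity
            linarith
          have h7 : 64 * (δ : ℝ) ≤ lam := by
            refine le_trans ?_ hlamL
            rw [hL]
            have : (0 : ℝ) ≤ 16 * δ * Real.log C₃ := by positivity
            linarith
          have h8 : 32 * δ * (n + 2) * h < m * lam := by
            rwa [div_lt_iff₀ hlampos] at hm_lt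
          have h9 : lam ≤ m * lam := le_mul_of_one_le_left hlampos.le hm1
          have h10 : 64 * (δ : ℝ) * m ≤ lam * m := mul_le_mul_of_nonneg_right h7 (by positivity)
          have h11 : (δ : ℝ) * (Real.log C₃ + 4 * (m + (n + 2) * h)) + m * (-lam / 4) =
              δ * Real.log C₃ + 4 * (δ * m) + 4 * (δ * (n + 2) * h) - m * lam / 4 := by ring
          rw [h11]
          have h12 : 4 * ((δ : ℝ) * m) ≤ m * lam / 16 := by linarith
          have h13 : 4 * ((δ : ℝ) * (n + 2) * h) < m * lam / 8 := by linarith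
          linarith
  · intro u hu
    obtain ⟨h1, x, hx, hfx⟩ := hS u hu
    refine ⟨?_, x, ?_, hfx⟩
    · have h1' : mulHeight₁ u ≤ Real.exp (lam * η) := by
        refine h1.trans ?_
        have h2 : (1 / ‖b‖) = Real.exp lam := by
          rw [hlam, Real.exp_log (by positivity)]
        rw [h2, ← Real.exp_mul]
        apply Real.exp_le_exp.2
        refine mul_le_mul_of_nonneg_left ?_ hlampos.le
        rw [hη]
        apply one_div_le_one_div_of_le (by positivity)
        linarith
      calc mulHeight₁ u ^ 2 ≤ Real.exp (lam * η) ^ 2 :=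
            pow_le_pow_left₀ (mulHeight₁_nonneg u) h1' _
        _ = W := by
            rw [← Real.exp_nat_mul, hW]
            congr 1
            push_cast
            ring
    · rw [Projectivization.logHeight_eq_log_mulHeight] at hx
      have h2 : x.mulHeight ≤ Real.exp h := by
        rwa [← Real.log_le_iff_le_exp x.mulHeight_pos]
      calc x.mulHeight ^ (n + 2) ≤ Real.exp h ^ (n + 2) :=
            pow_le_pow_left₀ x.mulHeight_pos.le h2 _
        _ = Y := by
            rw [← Real.exp_nat_mul, hY]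
            push_cast
            ring_nf
  · have h1 : 3 * m ≤ (3 + 2 * (n + 1) * E) * m := Nat.mul_le_mul_right _ (by omega)
    omega
  · intro i
    have h1 : e i ≤ E := Finset.single_le_sum (f := e) (fun _ _ => Nat.zero_le _)
      (Finset.mem_univ i)
    calc e i * ((n + 1) * (2 * m)) ≤ E * ((n + 1) * (2 * m)) := Nat.mul_le_mul_right _ h1
      _ = (2 * (n + 1) * E) * m := by ring
      _ ≤ (3 + 2 * (n + 1) * E) * m := Nat.mul_le_mul_right _ (by omega)
      _ < S.card := hbig'

end Pool.Agent.Results.MP_627a61_nt.GridRepulsion
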