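import Pool.Agent.KS6_12.Hyp.Phase2
import Pool.Agent.KS6_12.Hyp.PhaseInf
import Pool.Agent.KS6_12.Hyp.Kwack
import Pool.Agent.KS6_12.Hyp.Ident

/-! # Rational points of hyperbolic varieties on punctured neighbourhoods of infinity

`X` is the projective variety over the number field `K` given by the forms `F i` in `n + 1`
variables, and `X_σ` is Brody hyperbolic (for a projective variety this is the same as Kobayashi
hyperbolic). `PP K n` is projective space of dimension `n`, `Zer` the zero set of forms, `IsHol`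
says that a map to complex projective space is holomorphic, `toC σ` is the map from the
`K`-rational points to the complex points (`Pool/Agent/KS6_12/Hyp/Defs.lean`). The height
`logHeight` is the logarithmic Weil height relative to `K` of Mathlib.

Let `f` be a holomorphic map from `{|z| > R₀}` to `X_σ`. If for all sufficiently large positive
integers `m` the point `f m` is `K`-rational of height at most
`m log m / (112 (n + 2) [K : ℚ])`, then `f` is constant. -/

set_option autoImplicit false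

open NumberField Height Metric Set Filter Topology Pool.Agent.KS6_12
open Pool.Agent.NH29.GK (Phi Mat PM HolP Phi_inj Phi_diag_ne Phi_smul)

namespace Pool.Agent.Results.MP_627a61_nt.PuncturedPolya

theorem result {K : Type} [Field K] [NumberField K] (σ : K →+* ℂ) {n : ℕ} {ι : Type} [Fintype ι]
    (F : ι → MvPolynomial (Fin (n + 1)) K) (e : ι → ℕ) (hF : ∀ i, (F i).IsHomogeneous (e i))
    (hyp : BrodyHyp fun i => (F i).map σ) (R₀ : ℝ) (hR₀ : 0 ≤ R₀) (f : ℂ → PP ℂ n)
    (hf : IsHol {z | R₀ < ‖z‖} f) (hfX : ∀ z, R₀ < ‖z‖ → f z ∈ Zer fun i => (F i).map σ)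
    (hev : ∀ᶠ m : ℕ in atTop, ∃ x : PP K n,
      x.logHeight ≤ m * Real.log m / (112 * (n + 2) * Module.finrank ℚ K) ∧ f m = toC σ x) :
    ∃ x : PP K n, ∀ z, R₀ < ‖z‖ → f z = toC σ x := by
  classical
  have hδpos : (0 : ℝ) < Module.finrank ℚ K := by exact_mod_cast Module.finrank_pos
  set c : ℝ := 1 / (112 * (Module.finrank ℚ K : ℝ)) with hc
  have hcpos : 0 < c := by positivity
  have hc1 : c * (112 * (Module.finrank ℚ K : ℝ)) = 1 := by
    rw [hc]
    field_simp
  set R : ℝ := R₀ + 1 with hR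
  have hRpos : 0 < R := by linarith
  have hfR : IsHol {z | R < ‖z‖} f := hf.mono fun z hz => by
    have hz' : R < ‖z‖ := hz
    change R₀ < ‖z‖
    linarith
  obtain ⟨R₁, i₀, g, hR₁, hg, hgz⟩ := chart_at_infinity
    (SS_compact (fun i => (hF i).map σ)) (SS_sub _) (hyp_const (fun i => (hF i).map σ) hyp)
    hRpos (toMat_holP hfR)
    (fun z hz => toMat_mem (F := fun i => (F i).map σ) (hfX z (by linarith)))
  have hR₁1 : 1 ≤ R₁ := by linarith
  have hR₁pos : 0 < R₁ := by linarith
  set r₀ : ℝ := 1 / R₁ with hr₀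
  have hr₀pos : 0 < r₀ := by positivity
  have hr₀1 : r₀ ≤ 1 := by
    rw [hr₀, div_le_one hR₁pos]
    exact hR₁1
  -- the extension to infinity
  set G0 : ℂ → Fin (n + 1) → ℂ := fun w => g (1 / w) with hG0
  have hinv : ∀ w ∈ ball (0 : ℂ) r₀ \ {0}, R₁ < ‖1 / w‖ := by
    rintro w ⟨hw, hw0⟩
    rw [mem_ball_zero_iff, hr₀, lt_div_iff₀ hR₁pos] at hw
    have hwpos : 0 < ‖w‖ := norm_pos_iff.2 hw0
    rw [norm_div, norm_one, lt_div_iff₀ hwpos]
    linarith
  have hG0d : DifferentiableOn ℂ G0 (ball (0 : ℂ) r₀ \ {0}) := by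
    refine hg.comp (t := {z | R₁ < ‖z‖}) ?_ hinv
    intro w hw
    have hw0 : w ≠ 0 := hw.2
    exact ((differentiableAt_const (1 : ℂ)).div differentiableAt_id hw0).differentiableWithinAt
  have hG0b : BddAbove (norm ∘ G0 '' (ball (0 : ℂ) r₀ \ {0})) := by
    refine ⟨n + 2, ?_⟩
    rintro _ ⟨w, hw, rfl⟩
    rw [Function.comp_apply, pi_norm_le_iff_of_nonneg (by positivity)]
    exact (hgz _ (hinv w hw)).2.1
  have hGd := Complex.differentiableOn_update_limUnder_of_bddAbove
    (ball_mem_nhds (0 : ℂ) hr₀pos) hG0d hG0b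
  set G : ℂ → Fin (n + 1) → ℂ := Function.update G0 0 (limUnder (𝓝[≠] (0 : ℂ)) G0) with hGdef
  have hGne : ∀ w : ℂ, w ≠ 0 → G w = g (1 / w) := fun w hw => by
    rw [hGdef, Function.update_of_ne hw]
  set M : ℝ := n + 2 + ‖G 0‖ with hM
  have hM1 : 1 ≤ M := by
    have : (0 : ℝ) ≤ n := by positivity
    have := norm_nonneg (G 0)
    linarith
  have hGM : ∀ w ∈ ball (0 : ℂ) r₀, ∀ j, ‖G w j‖ ≤ M := by
    intro w hw j
    by_cases hw0 : w = 0
    · rw [hw0]
      have := norm_le_pi_norm (G 0) j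
      have : (0 : ℝ) ≤ n := by positivity
      linarith
    · rw [hGne w hw0]
      have := (hgz _ (hinv w ⟨hw, hw0⟩)).2.1 j
      have := norm_nonneg (G 0)
      linarith
  -- integral representatives
  obtain ⟨m₁, hm₁⟩ := eventually_atTop.1 hev
  have hrep : ∀ m : ℕ, m₁ ≤ m → ∃ y : Fin (n + 1) → 𝓞 K, y ≠ 0 ∧
      (∀ j, house (y j : K) ≤ Real.exp (c * (m * Real.log m))) ∧
      toMat f m = Phi (fun j => σ (y j : K)) := by
    intro m hm
    obtain ⟨x, hxh, hfx⟩ := hm₁ m hm
    obtain ⟨i, hi⟩ := Function.ne_iff.1 x.rep_nonzero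
    obtain ⟨y, hy1, hy2, hy3⟩ := exists_rep (x := x.rep) (i := i) hi
    refine ⟨y, fun h0 => hy1 (congrFun h0 i), fun j => (hy3 j).trans ?_, ?_⟩
    · have h1 : Height.mulHeight x.rep = x.mulHeight := by
        conv_rhs => rw [← x.mk_rep, Projectivization.mulHeight_mk]
      rw [h1]
      rw [Projectivization.logHeight_eq_log_mulHeight] at hxh
      have h2 : x.mulHeight ≤
          Real.exp (m * Real.log m / (112 * (n + 2) * Module.finrank ℚ K)) := by
        rwa [← Real.log_le_iff_le_exp x.mulHeight_pos]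
      calc x.mulHeight ^ (n + 2) ≤
            Real.exp (m * Real.log m / (112 * (n + 2) * Module.finrank ℚ K)) ^ (n + 2) :=
            pow_le_pow_left₀ x.mulHeight_pos.le h2 _
        _ = Real.exp (c * (m * Real.log m)) := by
            rw [← Real.exp_nat_mul]
            congr 1
            rw [hc]
            push_cast
            field_simp
    · unfold toMat
      rw [hfx]
      unfold toC
      rw [Phi_rep]
      have hri : σ (x.rep i) ≠ 0 := by
        rw [Ne, map_eq_zero]
        exact hi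
      have hyi : σ (y i : K) ≠ 0 := by
        rw [Ne, map_eq_zero]
        exact fun h => hy1 (RingOfIntegers.coe_eq_zero_iff.1 h)
      have h3 : (fun j => σ (y j : K)) = (σ (y i : K) / σ (x.rep i)) • fun j => σ (x.rep j) := by
        funext j
        have h4 := congrArg σ (hy2 j)
        rw [map_mul, map_mul] at h4
        rw [Pi.smul_apply, smul_eq_mul]
        field_simp
        exact h4
      rw [h3, Phi_smul (div_ne_zero hyi hri)]
  choose! y hyne hyB hyf using hrep
  have hdata : InfData σ y M r₀ c m₁ := by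
    refine ⟨hyB, G, hGd, hGM, fun k hk hk0 hkb => ?_⟩
    have hkc : (1 / k : ℂ) ≠ 0 := one_div_ne_zero (by exact_mod_cast hk0.ne')
    obtain ⟨h1, h2, h3, h4⟩ := hgz _ (hinv (1 / k) ⟨hkb, hkc⟩)
    rw [one_div_one_div] at h1 h2 h3 h4
    rw [hyf k hk] at h4
    obtain ⟨h7, h8⟩ := coords_int (hyne k hk) h3 h1 h4
    refine ⟨σ (y k i₀ : K), ?_, (norm_embedding_le_house _ σ).trans (hyB k hk i₀), ?_⟩
    · rw [Ne, map_eq_zero]
      exact fun h => h7 (RingOfIntegers.coe_eq_zero_iff.1 h)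
    · rw [hGne _ hkc, one_div_one_div]
      exact h8
  obtain ⟨B, E, N, hB, hpoly⟩ := poly_rep (phase_inf K hM1 hr₀pos hr₀1 hc1 σ y m₁ hdata)
  have hw : ∀ m : ℕ, max N m₁ ≤ m → ∃ w : Fin (n + 1) → 𝓞 K, w ≠ 0 ∧
      (∀ j, house (w j : K) ≤ B * (m + 1) ^ E) ∧ toMat f m = Phi (fun j => σ (w j : K)) := by
    intro m hm
    have hmN : N ≤ m := (le_max_left _ _).trans hm
    have hmm₀ : m₁ ≤ m := (le_max_right _ _).trans hm
    obtain ⟨w, hw0, ⟨a, b, ha, hb, hab⟩, hwB⟩ := hpoly m hmN (hyne m hmm₀)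
    refine ⟨w, hw0, hwB, ?_⟩
    have hσa : σ (a : K) ≠ 0 := by
      rw [Ne, map_eq_zero]
      exact fun h => ha (RingOfIntegers.coe_eq_zero_iff.1 h)
    have hσb : σ (b : K) ≠ 0 := by
      rw [Ne, map_eq_zero]
      exact fun h => hb (RingOfIntegers.coe_eq_zero_iff.1 h)
    have h1 : (fun j => σ (w j : K)) = (σ (b : K) / σ (a : K)) • fun j => σ (y m j : K) := by
      funext j
      have h2 := congrArg (fun t : 𝓞 K => σ (t : K)) (hab j)
      simp only [RingOfIntegers.coe_eq_algebraMap, map_mul] at h2 hσa hσb ⊢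
      rw [Pi.smul_apply, smul_eq_mul]
      field_simp
      exact h2
    rw [h1, Phi_smul (div_ne_zero hσb hσa)]
    exact hyf m hmm₀
  have hball : ∀ m : ℕ, ⌈2 * R₀⌉₊ + 1 ≤ m → ball (m : ℂ) (1 / 2 * m) ⊆ {z | R₀ < ‖z‖} := by
    intro m hm z hz
    rw [mem_ball_iff_norm] at hz
    have h1 : ‖(m : ℂ)‖ ≤ ‖z‖ + ‖z - m‖ := by
      have : (m : ℂ) = z - (z - m) := by ring
      conv_lhs => rw [this]
      exact norm_sub_le _ _
    rw [Complex.norm_natCast] at h1
    have h2 := Nat.le_ceil (2 * R₀)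
    have h3 : (⌈2 * R₀⌉₊ : ℝ) + 1 ≤ m := by exact_mod_cast hm
    change R₀ < ‖z‖
    linarith
  obtain ⟨N', hN'⟩ := windows σ hF hyp (κ := 1 / 2) (by norm_num) hf hfX hball hB hw
  obtain ⟨x, -, hx⟩ := hm₁ (max N' m₁) (le_max_right _ _)
  have hxall : ∀ m : ℕ, max N' m₁ ≤ m → f m = toC σ x := by
    intro m hm
    induction m, hm using Nat.le_induction with
    | base => exact hx
    | succ m hm ih => rw [← hN' m ((le_max_left _ _).trans hm)]; exact ih
  refine ⟨x, ?_⟩
  -- `f` is constant near infinity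
  set n₀ : ℕ := max (max N' m₁) (⌈R₁⌉₊ + 1) with hn₀
  set v : Fin (n + 1) → ℂ := g n₀ with hv
  have hnR₁ : ∀ m : ℕ, n₀ ≤ m → R₁ < m := by
    intro m hm
    have h1 := Nat.le_ceil R₁
    have h2 : (⌈R₁⌉₊ : ℝ) + 1 ≤ m := by
      have : ⌈R₁⌉₊ + 1 ≤ m := (le_max_right _ _).trans hm
      exact_mod_cast this
    linarith
  have hgm : ∀ m : ℕ, n₀ ≤ m → g m = v := by
    intro m hm
    obtain ⟨a1, a2, a3, a4⟩ := hgz (m : ℂ) (by rw [Complex.norm_natCast]; exact hnR₁ m hm)
    obtain ⟨b1, b2, b3, b4⟩ := hgz (n₀ : ℂ) (by rw [Complex.norm_natCast]; exact hnR₁ n₀ le_rfl)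
    have h1 : Phi (g m) = Phi (g n₀) := by
      rw [← a4, ← b4]
      unfold toMat
      rw [hxall m ((le_max_left _ _).trans hm), hxall n₀ (le_max_left _ _)]
    obtain ⟨t, ht, h2⟩ := Phi_inj b3 a3 h1.symm
    have h3 : t = 1 := by
      have := congrFun h2 i₀
      rw [Pi.smul_apply, smul_eq_mul, a1, b1, mul_one] at this
      exact this.symm
    rw [h2, h3, one_smul]
  have hGv : ∀ w ∈ ball (0 : ℂ) r₀, G w = v := by
    intro w hw
    funext j
    have han : AnalyticOnNhd ℂ (fun w => G w j - v j) (ball (0 : ℂ) r₀) := by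
      apply DifferentiableOn.analyticOnNhd _ isOpen_ball
      exact (differentiableOn_pi.1 hGd j).sub_const _
    have hfreq : ∃ᶠ w in 𝓝[≠] (0 : ℂ), G w j - v j = 0 := by
      have htend : Tendsto (fun m : ℕ => (1 / m : ℂ)) atTop (𝓝[≠] (0 : ℂ)) := by
        rw [tendsto_nhdsWithin_iff]
        refine ⟨tendsto_one_div_atTop_nhds_zero_nat, ?_⟩
        filter_upwards [eventually_ge_atTop 1] with m hm
        exact one_div_ne_zero (by
          have : m ≠ 0 := by omega
          exact_mod_cast this)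
      refine htend.frequently (Eventually.frequently ?_)
      filter_upwards [eventually_ge_atTop (max n₀ 1)] with m hm
      have hm0 : (m : ℂ) ≠ 0 := by
        have : m ≠ 0 := by
          have := (le_max_right _ _).trans hm
          omega
        exact_mod_cast this
      rw [hGne _ (one_div_ne_zero hm0), one_div_one_div, hgm m ((le_max_left _ _).trans hm),
        sub_self]
    have := han.eqOn_zero_of_preconnected_of_frequently_eq_zero
      (convex_ball (0 : ℂ) r₀).isPreconnected (mem_ball_self hr₀pos) hfreq hw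
    exact sub_eq_zero.1 this
  have hfar : ∀ z : ℂ, R₁ < ‖z‖ → f z = toC σ x := by
    intro z hz
    have hz0 : z ≠ 0 := by
      intro h
      rw [h, norm_zero] at hz
      linarith
    have hzb : 1 / z ∈ ball (0 : ℂ) r₀ := by
      rw [mem_ball_zero_iff, norm_div, norm_one, hr₀]
      exact one_div_lt_one_div_of_lt hR₁pos hz
    have h1 := hGv _ hzb
    rw [hGne _ (one_div_ne_zero hz0), one_div_one_div] at h1
    have h2 := (hgz z hz).2.2.2
    have h3 := (hgz (n₀ : ℂ) (by rw [Complex.norm_natCast]; exact hnR₁ n₀ le_rfl)).2.2.2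
    rw [h1] at h2
    rw [← hxall n₀ (le_max_left _ _), ← (f z).mk_rep, ← (f n₀).mk_rep]
    apply mk_eq_of_Phi
    change toMat f z = toMat f n₀
    rw [h2, h3]
  have hz₁ : R₀ < ‖((R₁ + 1 : ℝ) : ℂ)‖ := by
    rw [Complex.norm_real, Real.norm_of_nonneg (by linarith)]
    linarith
  refine hf.const_of_eventually (isPreconnected_outside hR₀) (z₀ := ((R₁ + 1 : ℝ) : ℂ)) hz₁ ?_
  have hopen : IsOpen {z : ℂ | R₁ < ‖z‖} := isOpen_lt continuous_const continuous_norm
  have hmem : ((R₁ + 1 : ℝ) : ℂ) ∈ {z : ℂ | R₁ < ‖z‖} := by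
    change R₁ < ‖((R₁ + 1 : ℝ) : ℂ)‖
    rw [Complex.norm_real, Real.norm_of_nonneg (by linarith)]
    linarith
  filter_upwards [hopen.mem_nhds hmem] with z hz
  exact hfar z hz

end Pool.Agent.Results.MP_627a61_nt.PuncturedPolya
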