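import Pool.Agent.KS6_12.Hyp.Phase2
import Pool.Agent.KS6_12.Hyp.SectorDef

/-! # A theorem of Pólya type for rational points of hyperbolic varieties

`X` is the projective variety over the number field `K` given by the forms `F i`, and `X_σ` is
Brody hyperbolic (for a projective variety this is the same as Kobayashi hyperbolic). `PP K n` is
projective space of dimension `n`, `Zer` the zero set of forms, `IsHol` says that a map to complex
projective space is holomorphic, `toC σ` is the map from the `K`-rational points to the complex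
points (`Pool/Agent/KS6_12/Hyp/Defs.lean`), and `Sector κ R₀` is the set of the complex numbers `z`
with `Re z > R₀` and `|Im z| < κ Re z`. The height `logHeight` is the logarithmic Weil height
relative to `K` of Mathlib.

For every `κ > 0` there is `c > 0`, which depends only on `X`, `K` and `κ`, such that the following
holds for all holomorphic maps `f` from a sector `Sector κ R₀` to `X_σ`: if for all sufficiently
large positive integers `m` the point `f m` is `K`-rational of height at most `c m`, then `f m`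
is the same point for all sufficiently large `m`. -/

set_option autoImplicit false

open NumberField Height Metric Set Filter Pool.Agent.KS6_12
open Pool.Agent.NH29.GK (Phi Mat PM HolP Phi_inj Phi_diag_ne Phi_smul)

namespace Pool.Agent.Results.MP_627a61_nt.SectorPolya

theorem result {K : Type} [Field K] [NumberField K] (σ : K →+* ℂ) {n : ℕ} {ι : Type} [Fintype ι]
    (F : ι → MvPolynomial (Fin (n + 1)) K) (e : ι → ℕ) (hF : ∀ i, (F i).IsHomogeneous (e i))
    (hyp : BrodyHyp fun i => (F i).map σ) (κ : ℝ) (hκ : 0 < κ) :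
    ∃ c : ℝ, 0 < c ∧ ∀ (R₀ : ℝ) (f : ℂ → PP ℂ n), IsHol (Sector κ R₀) f →
      (∀ z ∈ Sector κ R₀, f z ∈ Zer fun i => (F i).map σ) →
      (∀ᶠ m : ℕ in atTop, ∃ x : PP K n, x.logHeight ≤ c * m ∧ f m = toC σ x) →
      ∃ x : PP K n, ∀ᶠ m : ℕ in atTop, f m = toC σ x := by
  classical
  obtain ⟨ρ, hρ, hρ4, hchart⟩ := exists_chart (SS_compact (fun i => (hF i).map σ)) (SS_sub _)
    (hyp_const (fun i => (hF i).map σ) hyp)
  set κ' : ℝ := κ / (1 + κ) with hκ'
  have hκ'pos : 0 < κ' := by positivity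
  have hκ'1 : κ' < 1 := by
    rw [hκ', div_lt_one (by positivity)]
    linarith
  have hκ'eq : κ' * (1 + κ) = κ := by
    rw [hκ']
    field_simp
  set M₀ : ℝ := 2 * (n + 1) with hM₀
  have hM₀1 : 1 ≤ M₀ := by
    rw [hM₀]
    have : (0 : ℝ) ≤ n := by positivity
    linarith
  set ρ₁ : ℝ := κ' * ρ with hρ₁
  have hρ₁pos : 0 < ρ₁ := by positivity
  have hρ₁1 : ρ₁ ≤ 1 := by
    rw [hρ₁]
    have : κ' * ρ ≤ 1 * 1 := mul_le_mul hκ'1.le (by linarith) hρ.le zero_le_one
    linarith
  obtain ⟨c, hc, hphase⟩ := phase1 K hM₀1 hρ₁pos hρ₁1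
  refine ⟨c / (n + 2), by positivity, ?_⟩
  intro R₀ f hf hfX hev
  obtain ⟨m₁, hm₁⟩ := eventually_atTop.1 hev
  -- discs in the sector
  set m₀ : ℕ := max (m₁ + 1) (⌈R₀ / (1 - κ')⌉₊ + 1) with hm₀
  have hball : ∀ m : ℕ, m₀ ≤ m → ball (m : ℂ) (κ' * m) ⊆ Sector κ R₀ := by
    intro m hm z hz
    rw [mem_ball_iff_norm] at hz
    have h1 : |z.re - m| < κ' * m := by
      have := Complex.abs_re_le_norm (z - m)
      rw [Complex.sub_re, Complex.natCast_re] at this
      linarith
    have h2 : |z.im| < κ' * m := by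
      have := Complex.abs_im_le_norm (z - m)
      rw [Complex.sub_im, Complex.natCast_im, sub_zero] at this
      linarith
    have h3 : (1 - κ') * m < z.re := by
      have := (abs_lt.1 h1).1
      linarith
    have h4 : R₀ / (1 - κ') < m := by
      have h5 : ⌈R₀ / (1 - κ')⌉₊ + 1 ≤ m := (le_max_right _ _).trans hm
      have h6 : ((⌈R₀ / (1 - κ')⌉₊ : ℝ)) + 1 ≤ m := by exact_mod_cast h5
      have h7 := Nat.le_ceil (R₀ / (1 - κ'))
      linarith
    have h5 : R₀ < (1 - κ') * m := by
      rwa [div_lt_iff₀ (by linarith), mul_comm] at h4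
    refine ⟨by linarith, ?_⟩
    have h6 : κ' * m = κ * ((1 - κ') * m) := by
      have : κ' = κ * (1 - κ') := by linarith
      calc κ' * m = (κ * (1 - κ')) * m := by rw [← this]
        _ = _ := by ring
    rw [h6] at h2
    exact h2.trans (mul_lt_mul_of_pos_left h3 hκ)
  have hm₀1 : 1 ≤ m₀ := le_trans (by omega) (le_max_left _ _)
  have hm₀m₁ : m₁ ≤ m₀ := le_trans (by omega) (le_max_left _ _)
  -- integral representatives
  have hrep : ∀ m : ℕ, m₀ ≤ m → ∃ y : Fin (n + 1) → 𝓞 K, y ≠ 0 ∧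
      (∀ j, house (y j : K) ≤ Real.exp (c * m)) ∧ toMat f m = Phi (fun j => σ (y j : K)) := by
    intro m hm
    obtain ⟨x, hxh, hfx⟩ := hm₁ m (hm₀m₁.trans hm)
    obtain ⟨i, hi⟩ := Function.ne_iff.1 x.rep_nonzero
    obtain ⟨y, hy1, hy2, hy3⟩ := exists_rep (x := x.rep) (i := i) hi
    refine ⟨y, fun h0 => hy1 (congrFun h0 i), fun j => (hy3 j).trans ?_, ?_⟩
    · have h1 : Height.mulHeight x.rep = x.mulHeight := by
        conv_rhs => rw [← x.mk_rep, Projectivization.mulHeight_mk]
      rw [h1]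
      rw [Projectivization.logHeight_eq_log_mulHeight] at hxh
      have h2 : x.mulHeight ≤ Real.exp (c / (n + 2) * m) := by
        rwa [← Real.log_le_iff_le_exp x.mulHeight_pos]
      calc x.mulHeight ^ (n + 2) ≤ Real.exp (c / (n + 2) * m) ^ (n + 2) :=
            pow_le_pow_left₀ x.mulHeight_pos.le h2 _
        _ = Real.exp (c * m) := by
            rw [← Real.exp_nat_mul]
            congr 1
            push_cast
            field_simp
    · unfold toMat
      rw [hfx]
      unfold toC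
      rw [Phi_rep]
      have hri : σ (x.rep i) ≠ 0 := by
        rw [Ne, map_eq_zero]
        exact hi
      have hyi : σ (y i : K) ≠ 0 := by
        rw [Ne, map_eq_zero]
        exact fun h => hy1 (RingOfIntegers.coe_eq_zero_iff.1 h)
      have h3 : (fun j => σ (y j : K)) = (σ (y i : K) / σ (x.rep i)) • fun j => σ (x.rep j) := by
        funext j
        have h4 := congrArg σ (hy2 j)
        rw [map_mul, map_mul] at h4
        rw [Pi.smul_apply, smul_eq_mul]
        field_simp
        exact h4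
      rw [h3, Phi_smul (div_ne_zero hyi hri)]
  choose! y hyne hyB hyf using hrep
  have hdata : DiscData σ y M₀ ρ₁ c m₀ := by
    refine ⟨hyB, fun m hm => ?_⟩
    have hmpos : (0 : ℝ) < m := by
      have : 0 < m := by omega
      exact_mod_cast this
    have hκm : 0 < κ' * m := by positivity
    have hsub : ball (0 : ℂ) 1 ⊆
        (fun z => (m : ℂ) + ((κ' * m : ℝ) : ℂ) * z) ⁻¹' Sector κ R₀ := by
      have h1 := ball_sub hmpos hκ'pos
      rw [Complex.ofReal_natCast] at h1
      exact h1.trans (preimage_mono (hball m hm))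
    have hφhol : IsHol (ball 0 1) (fun z => f ((m : ℂ) + ((κ' * m : ℝ) : ℂ) * z)) :=
      (hf.comp_affine (m : ℂ) ((κ' * m : ℝ) : ℂ)).mono hsub
    obtain ⟨i₀, g, hg, hgz⟩ := hchart _ (toMat_holP hφhol)
      (fun z hz => toMat_mem (F := fun i => (F i).map σ) (hfX _ (hsub hz))) 0
      (mem_ball_self (by norm_num))
    have hb : ((κ' * m : ℝ) : ℂ) ≠ 0 := by exact_mod_cast hκm.ne'
    have hmaps : ∀ w ∈ ball (m : ℂ) (ρ₁ * m), (w - m) / ((κ' * m : ℝ) : ℂ) ∈ ball (0 : ℂ) ρ := by
      intro w hw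
      rw [mem_ball_iff_norm] at hw
      rw [mem_ball_zero_iff, norm_div, Complex.norm_real, Real.norm_of_nonneg hκm.le,
        div_lt_iff₀ hκm]
      calc ‖w - m‖ < ρ₁ * m := hw
        _ = ρ * (κ' * m) := by rw [hρ₁]; ring
    refine ⟨fun w => g ((w - m) / ((κ' * m : ℝ) : ℂ)), ?_, fun w hw j => ?_, fun k hk hkb => ?_⟩
    · exact hg.comp (by fun_prop : Differentiable ℂ fun w : ℂ =>
        (w - m) / ((κ' * m : ℝ) : ℂ)).differentiableOn hmaps
    · have h1 := (hgz _ (hmaps w hw)).2.1 j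
      by_contra hcon
      push Not at hcon
      have h2 : M₀ * 1 ≤ ‖g ((w - m) / ((κ' * m : ℝ) : ℂ)) j‖ *
          ‖g ((w - m) / ((κ' * m : ℝ) : ℂ)) j‖ :=
        mul_le_mul hcon.le (by linarith) zero_le_one (norm_nonneg _)
      have h3 : M₀ * 1 < ‖g ((w - m) / ((κ' * m : ℝ) : ℂ)) j‖ *
          ‖g ((w - m) / ((κ' * m : ℝ) : ℂ)) j‖ := by nlinarith
      rw [hM₀] at h3
      nlinarith
    · obtain ⟨h1, h2, h3, h4⟩ := hgz _ (hmaps k hkb)
      have h5 : (m : ℂ) + ((κ' * m : ℝ) : ℂ) * (((k : ℂ) - m) / ((κ' * m : ℝ) : ℂ)) = k := by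
        field_simp
        ring
      have h6 : toMat f k = Phi (g (((k : ℂ) - m) / ((κ' * m : ℝ) : ℂ))) := by
        rw [← h4]
        unfold toMat
        beta_reduce
        rw [h5]
      rw [hyf k hk] at h6
      obtain ⟨h7, h8⟩ := coords_int (hyne k hk) h3 h1 h6
      refine ⟨σ (y k i₀ : K), ?_, (norm_embedding_le_house _ σ).trans (hyB k hk i₀), h8⟩
      rw [Ne, map_eq_zero]
      exact fun h => h7 (RingOfIntegers.coe_eq_zero_iff.1 h)
  obtain ⟨B, E, N, hB, hpoly⟩ := poly_rep (hphase σ n y m₀ hdata)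
  have hw : ∀ m : ℕ, max N m₀ ≤ m → ∃ w : Fin (n + 1) → 𝓞 K, w ≠ 0 ∧
      (∀ j, house (w j : K) ≤ B * (m + 1) ^ E) ∧ toMat f m = Phi (fun j => σ (w j : K)) := by
    intro m hm
    have hmN : N ≤ m := (le_max_left _ _).trans hm
    have hmm₀ : m₀ ≤ m := (le_max_right _ _).trans hm
    obtain ⟨w, hw0, ⟨a, b, ha, hb, hab⟩, hwB⟩ := hpoly m hmN (hyne m hmm₀)
    refine ⟨w, hw0, hwB, ?_⟩
    have hσa : σ (a : K) ≠ 0 := by
      rw [Ne, map_eq_zero]
      exact fun h => ha (RingOfIntegers.coe_eq_zero_iff.1 h)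
    have hσb : σ (b : K) ≠ 0 := by
      rw [Ne, map_eq_zero]
      exact fun h => hb (RingOfIntegers.coe_eq_zero_iff.1 h)
    have h1 : (fun j => σ (w j : K)) = (σ (b : K) / σ (a : K)) • fun j => σ (y m j : K) := by
      funext j
      have h2 := congrArg (fun t : 𝓞 K => σ (t : K)) (hab j)
      simp only [RingOfIntegers.coe_eq_algebraMap, map_mul] at h2 hσa hσb ⊢
      rw [Pi.smul_apply, smul_eq_mul]
      field_simp
      exact h2
    rw [h1, Phi_smul (div_ne_zero hσb hσa)]
    exact hyf m hmm₀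
  obtain ⟨N', hN'⟩ := windows σ hF hyp hκ'pos hf hfX hball hB hw
  obtain ⟨x, -, hx⟩ := hm₁ (max N' m₁) (le_max_right _ _)
  refine ⟨x, eventually_atTop.2 ⟨max N' m₁, fun m hm => ?_⟩⟩
  induction m, hm using Nat.le_induction with
  | base => exact hx
  | succ m hm ih => rw [← hN' m ((le_max_left _ _).trans hm)]; exact ih

end Pool.Agent.Results.MP_627a61_nt.SectorPolya
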